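import Pool.Agent.Helper7.BX.Model

/-!
# A complete set for NEXP
-/

open Turing Pool.Agent.Helper91.PolyTime

namespace Pool.Agent.Helper7.BX

/-! ### Powers of two below a bound -/

/-- `min (2 ^ m) n`, computed in polynomial time -/
def cap (m n : ℕ) : ℕ := (fun a => min (2 * a) n)^[m] (min 1 n)

lemma cap_eq (m n : ℕ) : cap m n = min (2 ^ m) n := by
  unfold cap
  induction m with
  | zero => rfl
  | succ m ih =>
    rw [Function.iterate_succ_apply', ih, pow_succ]
    omega

section ptf

variable {α : Type} [PEnc α]

lemma ptf_min {m n : α → ℕ} (hm : PTF m) (hn : PTF n) : PTF (fun x => min (m x) (n x)) := by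
  refine (PTF.ite (PTF.le hm hn) hm hn).of_eq fun x => ?_
  exact (min_def _ _).symm

lemma ptf_cap {m n : α → ℕ} (hm : PTF m) (hn : PTF n) : PTF (fun x => cap (m x) (n x)) := by
  obtain ⟨p, hp⟩ := hn.length_le
  unfold cap
  refine PTF.iterate (F := fun x a => min (2 * a) (n x)) hm (ptf_min (PTF.const 1) hn)
    (ptf_min (PTF.mul (PTF.const 2) PTF.id.snd) (hn.comp PTF.id.fst)) p ?_
  intro a k _
  have h1 := cap_eq k (n a)
  have h2 := hp a
  unfold cap at h1
  rw [length_enc_nat] at h2 ⊢
  rw [h1]
  omega

lemma ptf_take {n : α → ℕ} {l : α → List Bool} (hn : PTF n) (hl : PTF l) :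
    PTF (fun x => (l x).take (n x)) := by
  refine (PTF.flatMap (f := fun x i => ((l x)[i]?).toList) (PTF.range hn) ?_).of_eq fun x => ?_
  · refine (PTF.optCase (n := fun _ => ([] : List Bool)) (s := fun _ b => [b])
      (PTF.getElem? PTF.id.snd (hl.comp PTF.id.fst)) (PTF.const []) (PTF.cons PTF.id.snd
        (PTF.const []))).of_eq fun p => ?_
    cases (l p.1)[p.2]? <;> rfl
  · have h : ∀ (L : List Bool) (n : ℕ), ((List.range n).flatMap fun i => (L[i]?).toList) =
        L.take n := by
      intro L
      induction L with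
      | nil => intro n; simp
      | cons a L ih =>
        intro n
        rcases n with _ | n
        · rfl
        · rw [List.range_succ_eq_map, List.flatMap_cons, List.flatMap_map]
          simp only [List.getElem?_cons_succ]
          rw [ih n]
          rfl
    exact h _ _

lemma ptf_ones {n : α → ℕ} (hn : PTF n) : PTF (fun x => List.replicate (n x) true) := by
  refine (PTF.map (f := fun _ _ => true) (PTF.range hn) (PTF.const true)).of_eq fun x => ?_
  simp

end ptf

/-! ### The complete set -/

/-- the verifier of the complete set -/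
def VK (c g : List Bool) : Bool :=
  decide (c.head? = some true) &&
    decide (univ (fstC c.tail) (pairCode (fstC (sndC c.tail))
      (g.take (cap (fstC (sndC (sndC c.tail))).length g.length))) g.length = [true])

/-- the complete set -/
def K : Lang := {c | ∃ g : List Bool, g.length = 2 ^ c.length ∧ VK c g = true}

/-- the instances outside are trivial -/
lemma head_of_mem_K {c : List Bool} (h : c ∈ K) : c.head? = some true := by
  obtain ⟨g, -, hg⟩ := h
  unfold VK at hg
  rw [Bool.and_eq_true] at hg
  exact of_decide_eq_true hg.1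

theorem ptf_VK {α : Type} [PEnc α] {c g : α → List Bool} (hc : PTF c) (hg : PTF g) :
    PTF (fun x => VK (c x) (g x)) := by
  unfold VK
  have ht : PTF (fun x => (c x).tail) := PTF.tail hc
  refine PTF.and (PTF.eq (PTF.head? hc) (PTF.const _)) (PTF.eq (ptf_univ (ptf_fstC ht)
    (ptf_pairCode (ptf_fstC (ptf_sndC ht)) (ptf_take (ptf_cap (PTF.length (ptf_fstC (ptf_sndC
      (ptf_sndC ht)))) (PTF.length hg)) hg)) (PTF.length hg)) (PTF.const _))

/-- `K` is in NEXP. -/
theorem K_inNEXP : InNEXP K := by
  rw [inNEXP_iff]
  refine ⟨fun p => VK p.1 (p.2.take (cap p.1.length p.2.length)), 1,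
    ptf_VK PTF.id.fst (ptf_take (ptf_cap (PTF.length PTF.id.fst) (PTF.length PTF.id.snd))
      PTF.id.snd), fun x => ?_⟩
  rw [pow_one]
  have hle : 2 ^ x.length ≤ 2 ^ (x.length + 1) := Nat.pow_le_pow_right (by omega) (by omega)
  constructor
  · rintro ⟨g, hg, h⟩
    refine ⟨g ++ List.replicate (2 ^ (x.length + 1) - 2 ^ x.length) false, ?_, ?_⟩
    · rw [List.length_append, List.length_replicate, hg]
      omega
    · have e1 : (g ++ List.replicate (2 ^ (x.length + 1) - 2 ^ x.length) false).length =
          2 ^ (x.length + 1) := by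
        rw [List.length_append, List.length_replicate, hg]
        omega
      simp only
      rw [e1, cap_eq, min_eq_left hle, ← hg, List.take_left]
      exact h
  · rintro ⟨g, hg, h⟩
    simp only at h
    rw [hg, cap_eq, min_eq_left hle] at h
    exact ⟨_, by rw [List.length_take, hg]; omega, h⟩

lemma add_le_two_pow {a b A B : ℕ} (ha : a < 2 ^ A) (hb : b ≤ 2 ^ B) : a + b ≤ 2 ^ (A + B) := by
  rw [pow_add]
  have h1 : 1 ≤ 2 ^ B := Nat.one_le_two_pow
  nlinarith

/-- **`K` is complete**, under many-one reductions. -/
theorem K_complete {C : Lang} (hC : InNEXP C) :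
    ∃ f : List Bool → List Bool, PTF f ∧ ∀ x, x ∈ C ↔ f x ∈ K := by
  rw [inNEXP_iff] at hC
  obtain ⟨V, r, hV, hVC⟩ := hC
  obtain ⟨e, s, he⟩ := exists_prog_test hV
  let m : List Bool → ℕ := fun x => x.length ^ r + r
  let v : List Bool → ℕ := fun x => s * (2 * x.length + 1 + m x) + s
  let f : List Bool → List Bool := fun x => true :: pairCode e (pairCode x (pairCode
    (List.replicate (m x) true) (List.replicate (v x) true)))
  have hm : PTF m := PTF.add (PTF.pow (PTF.length PTF.id) r) (PTF.const r)
  have hv : PTF v := PTF.add (PTF.mul (PTF.const s) (PTF.add (PTF.add (PTF.mul (PTF.const 2)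
    (PTF.length PTF.id)) (PTF.const 1)) hm)) (PTF.const s)
  refine ⟨f, PTF.cons (PTF.const true) (ptf_pairCode (PTF.const e) (ptf_pairCode PTF.id
    (ptf_pairCode (ptf_ones hm) (ptf_ones hv)))), fun x => ?_⟩
  have hlen : v x + m x ≤ (f x).length := by
    change v x + m x ≤ (true :: pairCode e (pairCode x (pairCode
      (List.replicate (m x) true) (List.replicate (v x) true)))).length
    simp only [List.length_cons, length_pairCode, List.length_replicate]
    omega
  have hmle : 2 ^ m x ≤ 2 ^ (f x).length := Nat.pow_le_pow_right (by omega) (by omega)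
  have htime : (2 * x.length + 2 ^ m x + 1) ^ s + s ≤ 2 ^ (f x).length := by
    have h1 : 2 * x.length + 2 ^ m x + 1 ≤ 2 ^ (2 * x.length + 1 + m x) := by
      have h2 := add_le_two_pow (a := 2 * x.length + 1) (b := 2 ^ m x) (A := 2 * x.length + 1)
        (B := m x) Nat.lt_two_pow_self (le_refl _)
      omega
    have h2 : (2 * x.length + 2 ^ m x + 1) ^ s ≤ 2 ^ (s * (2 * x.length + 1 + m x)) := by
      have h3 := Nat.pow_le_pow_left h1 s
      rwa [← pow_mul, mul_comm _ s] at h3
    have h3 := add_le_two_pow (a := s) (A := s) Nat.lt_two_pow_self h2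
    have h4 : 2 ^ (s + s * (2 * x.length + 1 + m x)) ≤ 2 ^ (f x).length := by
      refine Nat.pow_le_pow_right (by omega) ?_
      have : v x = s * (2 * x.length + 1 + m x) + s := rfl
      omega
    omega
  -- the verifier
  have hVK : ∀ g : List Bool, g.length = 2 ^ (f x).length →
      (VK (f x) g = true ↔ V (x, g.take (2 ^ m x)) = true) := by
    intro g hg
    have e1 : cap (m x) g.length = 2 ^ m x := by rw [cap_eq, hg, min_eq_left hmle]
    have e2 : (g.take (2 ^ m x)).length = 2 ^ m x := by
      rw [List.length_take, hg]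
      omega
    have e3 := he x (g.take (2 ^ m x)) g.length (by
      rw [length_pairCode, e2, hg]
      exact htime)
    change (decide ((f x).head? = some true) && decide (univ (fstC (f x).tail) (pairCode
      (fstC (sndC (f x).tail)) (g.take (cap (fstC (sndC (sndC (f x).tail))).length g.length)))
      g.length = [true])) = true ↔ _
    simp only [f, List.head?_cons, List.tail_cons, fstC_pair, sndC_pair, List.length_replicate, e1,
      e3]
    simp
  rw [hVC]
  constructor
  · rintro ⟨g, hg, h⟩
    have hg' : g.length = 2 ^ m x := hg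
    refine ⟨g ++ List.replicate (2 ^ (f x).length - 2 ^ m x) false, ?_, ?_⟩
    · rw [List.length_append, List.length_replicate, hg']
      omega
    · rw [hVK _ (by rw [List.length_append, List.length_replicate, hg']; omega), ← hg',
        List.take_left]
      exact h
  · rintro ⟨g, hg, h⟩
    rw [hVK g hg] at h
    exact ⟨_, by rw [List.length_take, hg]; exact min_eq_left hmle, h⟩

end Pool.Agent.Helper7.BX
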