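import Pool.Agent.Helper7.BX.K
import Pool.Agent.Helper91.PolyTime.Verifier

/-!
# Exhaustive search with a clock

The clock `N` is a number in unary; lists of all strings of length `L` are made if `2 ^ L ≤ N`.
-/

open Turing Pool.Agent.Helper91.PolyTime

namespace Pool.Agent.Helper7.BX

/-! ### All strings of a length -/

/-- one more symbol -/
def more (N : ℕ) (l : List (List Bool)) : List (List Bool) :=
  if 2 * l.length ≤ N then l.flatMap fun s => [false :: s, true :: s] else []

/-- all strings of length `L`, if `2 ^ L ≤ N` -/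
def allS (N L : ℕ) : List (List Bool) := (more N)^[L] [[]]

lemma length_more (N : ℕ) (l : List (List Bool)) (h : 2 * l.length ≤ N) :
    (more N l).length = 2 * l.length := by
  unfold more
  rw [if_pos h, List.length_flatMap]
  simp [mul_comm]

lemma allS_succ (N L : ℕ) : allS N (L + 1) = more N (allS N L) := by
  unfold allS
  rw [Function.iterate_succ_apply']

lemma allS_length {N L : ℕ} (h : 2 ^ L ≤ N) : (allS N L).length = 2 ^ L := by
  induction L with
  | zero => rfl
  | succ L ih =>
    have h1 : 2 ^ (L + 1) = 2 * 2 ^ L := by ring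
    rw [allS_succ, length_more _ _ (by rw [ih (by omega)]; omega), ih (by omega), h1]

/-- the list is complete -/
lemma mem_allS {N L : ℕ} (h : 2 ^ L ≤ N) (s : List Bool) : s ∈ allS N L ↔ s.length = L := by
  induction L generalizing s with
  | zero =>
    change s ∈ [[]] ↔ _
    rw [List.mem_singleton, List.length_eq_zero_iff]
  | succ L ih =>
    have h1 : 2 ^ (L + 1) = 2 * 2 ^ L := by ring
    rw [allS_succ]
    unfold more
    rw [if_pos (by rw [allS_length (by omega)]; omega), List.mem_flatMap]
    constructor
    · rintro ⟨t, ht, hs⟩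
      rw [ih (by omega)] at ht
      simp only [List.mem_cons, List.not_mem_nil, or_false] at hs
      rcases hs with rfl | rfl <;> simp [ht]
    · intro hs
      rcases s with _ | ⟨b, s⟩
      · simp at hs
      · rw [List.length_cons, Nat.add_right_cancel_iff] at hs
        refine ⟨s, (ih (by omega) s).2 hs, ?_⟩
        cases b <;> simp

/-- all the strings in the list have this length, in any case -/
lemma length_of_mem_allS {N L : ℕ} {s : List Bool} (h : s ∈ allS N L) : s.length = L := by
  induction L generalizing s with
  | zero =>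
    change s ∈ [[]] at h
    rw [List.mem_singleton] at h
    rw [h]
    rfl
  | succ L ih =>
    rw [allS_succ] at h
    unfold more at h
    split_ifs at h with h1
    · rw [List.mem_flatMap] at h
      obtain ⟨t, ht, hs⟩ := h
      have h2 := ih ht
      simp only [List.mem_cons, List.not_mem_nil, or_false] at hs
      rcases hs with rfl | rfl <;> simp [h2]
    · simp at h

lemma allS_length_le (N L : ℕ) : (allS N L).length ≤ N + 1 := by
  induction L with
  | zero => simp [allS]
  | succ L ih =>
    rw [allS_succ]
    by_cases h : 2 * (allS N L).length ≤ N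
    · rw [length_more _ _ h]
      omega
    · unfold more
      rw [if_neg h]
      simp

lemma enc_strs_le {l : List (List Bool)} {B : ℕ} (h : ∀ s ∈ l, s.length ≤ B) :
    (enc l).length ≤ l.length * (6 * B + 1) := by
  induction l with
  | nil => simp [enc_nil]
  | cons s l ih =>
    rw [length_enc_cons, Pool.Agent.Helper91.Verifier.length_enc_bools, List.length_cons]
    have h1 := ih fun b hb => h b (List.mem_cons_of_mem _ hb)
    have h2 := h s (by simp)
    have h3 : (l.length + 1) * (6 * B + 1) = l.length * (6 * B + 1) + (6 * B + 1) := by ring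
    omega

section ptf

variable {α : Type} [PEnc α]

lemma ptf_more {N : α → ℕ} {l : α → List (List Bool)} (hN : PTF N) (hl : PTF l) :
    PTF (fun x => more (N x) (l x)) := by
  unfold more
  refine PTF.ite (PTF.le (PTF.mul (PTF.const 2) (PTF.length hl)) hN)
    (PTF.flatMap (f := fun _ s => [false :: s, true :: s]) hl ?_) (PTF.const [])
  exact PTF.cons (PTF.cons (PTF.const false) PTF.id.snd)
    (PTF.cons (PTF.cons (PTF.const true) PTF.id.snd) (PTF.const []))

/-- **The list of all strings of length `L` is computable** in time polynomial in `L` and the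
clock. -/
theorem ptf_allS {N L : α → ℕ} (hN : PTF N) (hL : PTF L) : PTF (fun x => allS (N x) (L x)) := by
  obtain ⟨p, hp⟩ := hN.length_le
  obtain ⟨q, hq⟩ := hL.length_le
  unfold allS
  refine PTF.iterate (F := fun x l => more (N x) l) hL (PTF.const [[]])
    (ptf_more (hN.comp PTF.id.fst) PTF.id.snd) ((p + 1) * (6 * q + 1)) ?_
  intro a m hm
  change (enc (allS (N a) m)).length ≤ _
  have h1 := enc_strs_le (l := allS (N a) m) (B := m) fun s hs => (length_of_mem_allS hs).le
  have h2 := allS_length_le (N a) m
  have h3 := hp a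
  have h4 := hq a
  rw [length_enc_nat] at h3 h4
  refine h1.trans ?_
  simp only [Polynomial.eval_add, Polynomial.eval_mul, Polynomial.eval_one, Polynomial.eval_ofNat]
  exact Nat.mul_le_mul (by omega) (by omega)

end ptf

/-! ### Exhaustive search for witnesses -/

/-- Does `c` have a witness? The clock has to be at least `2 ^ 2 ^ |c|`. -/
def bK (N : ℕ) (c : List Bool) : Bool :=
  (allS N (cap c.length N)).any fun g => VK c g

theorem bK_iff {N : ℕ} {c : List Bool} (h : 2 ^ 2 ^ c.length ≤ N) : bK N c = true ↔ c ∈ K := by
  have h0 : 2 ^ c.length ≤ N := Nat.lt_two_pow_self.le.trans h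
  unfold bK
  rw [cap_eq, min_eq_left h0, List.any_eq_true]
  constructor
  · rintro ⟨g, hg, hV⟩
    exact ⟨g, (mem_allS h g).1 hg, hV⟩
  · rintro ⟨g, hg, hV⟩
    exact ⟨g, (mem_allS h g).2 hg, hV⟩

/-- In any case a positive answer is right if `2 ^ |c| ≤ N`. -/
theorem bK_sound {N : ℕ} {c : List Bool} (h : 2 ^ c.length ≤ N) (hb : bK N c = true) : c ∈ K := by
  unfold bK at hb
  rw [cap_eq, min_eq_left h, List.any_eq_true] at hb
  obtain ⟨g, hg, hV⟩ := hb
  exact ⟨g, length_of_mem_allS hg, hV⟩

theorem ptf_bK {α : Type} [PEnc α] {N : α → ℕ} {c : α → List Bool} (hN : PTF N) (hc : PTF c) :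
    PTF (fun x => bK (N x) (c x)) := by
  unfold bK
  exact PTF.any (f := fun x g => VK (c x) g) (ptf_allS hN (ptf_cap (PTF.length hc) hN))
    (ptf_VK (hc.comp PTF.id.fst) PTF.id.snd)

/-! ### Union, intersection -/

/-- A test with a guess that is a prefix: `InNEXP` from a verifier that uses the first
`2 ^ (|x| ^ r + r)` symbols or fewer, with any bigger exponent. -/
theorem inNEXP_of_ptf {A : Lang} {V : List Bool × List Bool → Bool} {r : ℕ} (hV : PTF V)
    (h : ∀ x, x ∈ A ↔ ∃ g : List Bool, g.length = 2 ^ (x.length ^ r + r) ∧ V (x, g) = true) :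
    InNEXP A := inNEXP_iff.2 ⟨V, r, hV, h⟩

end Pool.Agent.Helper7.BX
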