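import Pool.Agent.Helper7.BX.Univ
import Pool.Agent.Helper89.Comp

/-!
# The model for MP_4a5e7e_lc: machines, NEXP, truth-table reductions
-/

open Turing Pool.Agent.Helper91.PolyTime

namespace Pool.Agent.Helper7.BX

/-! ### Definitions -/

/-- Languages: sets of strings over `{0, 1}`. -/
abbrev Lang : Type := Set (List Bool)

/-- The code of a pair of strings: the symbols of the first string, each preceded by `1`, then `0`,
then the second string. -/
def pairCode (u v : List Bool) : List Bool := u.flatMap (fun a => [true, a]) ++ false :: v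

/-- The code of a list of strings. -/
def listCode (l : List (List Bool)) : List Bool := l.foldr pairCode []

/-- `S` is in P: a machine decides it in polynomial time. (Mathlib's `TM2ComputableInPolyTime`:
machines with finitely many stacks.) -/
def InP (S : Lang) : Prop :=
  ∃ f : List Bool → Bool, Nonempty (TM2ComputableInPolyTime (fun x : List Bool => x)
    (fun b : Bool => [b]) f) ∧ ∀ x, x ∈ S ↔ f x = true

/-- A test for pairs of strings can be decided in polynomial time. -/
def PolyTest (V : List Bool × List Bool → Bool) : Prop :=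
  Nonempty (TM2ComputableInPolyTime (fun p : List Bool × List Bool => pairCode p.1 p.2)
    (fun b : Bool => [b]) V)

/-- `A` is in NEXP: there are a test `V` that is decided in polynomial time and an exponent `r`
such that `x ∈ A` if and only if `V (x, g)` holds for some `g` of the length
`2 ^ (|x| ^ r + r)`. -/
def InNEXP (A : Lang) : Prop :=
  ∃ (V : List Bool × List Bool → Bool) (r : ℕ), PolyTest V ∧
    ∀ x, x ∈ A ↔ ∃ g : List Bool, g.length = 2 ^ (x.length ^ r + r) ∧ V (x, g) = true

open Classical in
/-- The reducibility `≤` with at most `k` nonadaptive queries, in polynomial time: `q x` is the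
list of the queries on the input `x`, and `D` decides, given `x` and the list of the answers. -/
def Ktt (k : ℕ) (A B : Lang) : Prop :=
  ∃ (q : List Bool → List (List Bool)) (D : List Bool × List Bool → Bool),
    Nonempty (TM2ComputableInPolyTime (fun x : List Bool => x) listCode q) ∧ PolyTest D ∧
    ∀ x, (q x).length ≤ k ∧ (x ∈ A ↔ D (x, (q x).map fun y => decide (y ∈ B)) = true)

/-- `A` is complete for NEXP under this reducibility. -/
def CompleteKtt (k : ℕ) (A : Lang) : Prop := InNEXP A ∧ ∀ C, InNEXP C → Ktt k C A

/-- `A` is mitotic: for some `S` in P the sets `A`, `A ∩ S` and `A \ S` are pairwise equivalent. -/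
def MitoticKtt (k : ℕ) (A : Lang) : Prop :=
  ∃ S, InP S ∧ Ktt k A (A ∩ S) ∧ Ktt k (A ∩ S) A ∧ Ktt k A (A \ S) ∧ Ktt k (A \ S) A ∧
    Ktt k (A ∩ S) (A \ S) ∧ Ktt k (A \ S) (A ∩ S)

/-! ### Polynomial time functions: the library and Mathlib's machines -/

lemma pairCode_eq (u v : List Bool) : pairCode u v = pr u v := rfl

section conv

variable {α β : Type} [PEnc α] [PEnc β]

lemma tm2_of_pt {ea : α → List Bool} {eb : β → List Bool} {f : α → β}
    (h : PT ea (fun a => eb (f a))) : Nonempty (TM2ComputableInPolyTime ea eb f) := by
  refine PT.tm2 _ _ (fun b => [b]) f ?_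
  have h1 : (fun a : α => (ea a).flatMap (fun b => [b])) = ea := by
    funext a
    simp
  rw [h1]
  exact h

/-- from the library to machines -/
lemma tm2_of_ptf {f : α → β} (h : PTF f) :
    Nonempty (TM2ComputableInPolyTime (enc : α → List Bool) (enc : β → List Bool) f) := tm2_of_pt h

/-- from machines to the library, for arbitrary codes that are themselves computable -/
theorem pt_of_tm2 {γ δ : Type} {ea : γ → List Bool} {eb : δ → List Bool} {f : γ → δ}
    (H : Nonempty (TM2ComputableInPolyTime ea eb f)) : PT ea (fun a => eb (f a)) := by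
  obtain ⟨e, p, h⟩ := exists_prog H
  -- the function on strings
  have h1 : PTF (fun x : Str => Str.ofList (univ e x.toList (p.eval x.len))) :=
    PTF.strOfList (ptf_univ (PTF.const e) (PTF.strToList PTF.id)
      (PTF.polyEval p (PTF.strLen PTF.id)))
  have h2 := PT.reindex h1 ea
  have h3 : (fun a : γ => enc (Str.ofList (univ e (Str.toList (ea a)) (p.eval (Str.len (ea a)))))) =
      fun a => eb (f a) := by
    funext a
    exact h a _ (le_refl _)
  exact h3 ▸ h2

/-- from machines to the library -/
theorem ptf_of_tm2 {f : α → β}
    (H : Nonempty (TM2ComputableInPolyTime (enc : α → List Bool) (enc : β → List Bool) f)) :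
    PTF f := pt_of_tm2 H

theorem ptf_iff {f : α → β} : PTF f ↔
    Nonempty (TM2ComputableInPolyTime (enc : α → List Bool) (enc : β → List Bool) f) :=
  ⟨tm2_of_ptf, ptf_of_tm2⟩

end conv

/-! ### The definitions in terms of the library -/

lemma ptf_toStr2 : PTF (fun p : List Bool × List Bool => (Str.ofList p.1, Str.ofList p.2)) :=
  PTF.pair (PTF.strOfList PTF.id.fst) (PTF.strOfList PTF.id.snd)

theorem polyTest_iff {V : List Bool × List Bool → Bool} : PolyTest V ↔ PTF V := by
  constructor
  · intro h
    have h1 : PT (fun p : List Bool × List Bool => pairCode p.1 p.2) (fun p => [V p]) :=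
      pt_of_tm2 h
    have h2 : PTF (fun p : Str × Str => V (p.1, p.2)) := h1
    exact h2.comp ptf_toStr2
  · intro h
    have h1 : PTF (fun p : Str × Str => V (p.1.toList, p.2.toList)) :=
      h.comp (PTF.pair (PTF.strToList PTF.id.fst) (PTF.strToList PTF.id.snd))
    have h2 : PT (fun p : List Bool × List Bool => pairCode p.1 p.2) (fun p => [V p]) := h1
    exact tm2_of_pt h2

theorem test1_iff {f : List Bool → Bool} : Nonempty (TM2ComputableInPolyTime
    (fun x : List Bool => x) (fun b : Bool => [b]) f) ↔ PTF f := by
  constructor
  · intro h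
    have h1 : PT (fun p : List Bool => p) (fun p => [f p]) := pt_of_tm2 h
    have h2 : PTF (fun p : Str => f p) := h1
    exact h2.comp (PTF.strOfList PTF.id)
  · intro h
    have h1 : PTF (fun p : Str => f p.toList) := h.comp (PTF.strToList PTF.id)
    have h2 : PT (fun p : List Bool => p) (fun p => [f p]) := h1
    exact tm2_of_pt h2

lemma listCode_eq (l : List (List Bool)) : listCode l = enc (l.map Str.ofList) := by
  induction l with
  | nil => rfl
  | cons a l ih =>
    have h : listCode (a :: l) = pairCode a (listCode l) := rfl
    rw [h, ih]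
    rfl

theorem list_iff {q : List Bool → List (List Bool)} : Nonempty (TM2ComputableInPolyTime
    (fun x : List Bool => x) listCode q) ↔ PTF q := by
  constructor
  · intro h
    have h1 : PT (fun p : List Bool => p) (fun p => listCode (q p)) := pt_of_tm2 h
    simp only [listCode_eq] at h1
    have h2 : PTF (fun p : Str => (q p).map Str.ofList) := h1
    have h3 : PTF (fun p : List Bool => (q (Str.ofList p)).map Str.ofList) :=
      h2.comp (PTF.strOfList PTF.id)
    refine (PTF.map (f := fun _ (s : Str) => s.toList) h3 (PTF.strToList PTF.id.snd)).of_eq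
      fun p => ?_
    rw [List.map_map]
    exact List.map_id _
  · intro h
    have h1 : PTF (fun p : Str => (q p.toList).map Str.ofList) :=
      PTF.map (f := fun _ (s : List Bool) => Str.ofList s) (h.comp (PTF.strToList PTF.id))
        (PTF.strOfList PTF.id.snd)
    have h2 : PT (fun p : List Bool => p) (fun p => listCode (q p)) := by
      simp only [listCode_eq]
      exact h1
    exact tm2_of_pt h2

theorem inP_iff {S : Lang} : InP S ↔ ∃ f : List Bool → Bool, PTF f ∧ ∀ x, x ∈ S ↔ f x = true := by
  unfold InP
  simp only [test1_iff]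

theorem inNEXP_iff {A : Lang} : InNEXP A ↔ ∃ (V : List Bool × List Bool → Bool) (r : ℕ), PTF V ∧
    ∀ x, x ∈ A ↔ ∃ g : List Bool, g.length = 2 ^ (x.length ^ r + r) ∧ V (x, g) = true := by
  unfold InNEXP
  simp only [polyTest_iff]

open Classical in
theorem ktt_iff {k : ℕ} {A B : Lang} : Ktt k A B ↔
    ∃ (q : List Bool → List (List Bool)) (D : List Bool × List Bool → Bool), PTF q ∧ PTF D ∧
    ∀ x, (q x).length ≤ k ∧ (x ∈ A ↔ D (x, (q x).map fun y => decide (y ∈ B)) = true) := by
  unfold Ktt
  simp only [polyTest_iff, list_iff]

/-! ### Programs for these functions -/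

/-- programs for tests of pairs -/
theorem exists_prog_test {V : List Bool × List Bool → Bool} (hV : PTF V) :
    ∃ (e : List Bool) (r : ℕ), ∀ (x g : List Bool) (t : ℕ),
      (pairCode x g).length ^ r + r ≤ t → univ e (pairCode x g) t = [V (x, g)] := by
  obtain ⟨e, r, h⟩ := exists_prog' (polyTest_iff.2 hV)
  exact ⟨e, r, fun x g t ht => h (x, g) t ht⟩

/-- programs for functions from strings to strings -/
theorem exists_prog_str {f : List Bool → List Bool} (hf : PTF f) :
    ∃ (e : List Bool) (r : ℕ), ∀ (x : List Bool) (t : ℕ),
      x.length ^ r + r ≤ t → univ e x t = f x := by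
  have h1 : PTF (fun p : Str => Str.ofList (f p.toList)) :=
    PTF.strOfList (hf.comp (PTF.strToList PTF.id))
  have h2 : PT (fun p : List Bool => p) (fun p => f p) := h1
  obtain ⟨e, r, h⟩ := exists_prog' (tm2_of_pt h2)
  exact ⟨e, r, fun x t ht => h x t ht⟩

/-- Programs for functions from strings to values of any encoded type: the output is the code of the
value. -/
theorem exists_prog_enc {β : Type} [PEnc β] {f : List Bool → β} (hf : PTF f) :
    ∃ (e : List Bool) (r : ℕ), ∀ (x : List Bool) (t : ℕ),
      x.length ^ r + r ≤ t → univ e x t = enc (f x) := by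
  have h1 : PTF (fun p : Str => f p.toList) := hf.comp (PTF.strToList PTF.id)
  have h2 : PT (fun p : List Bool => p) (fun p => enc (f p)) := h1
  obtain ⟨e, r, h⟩ := exists_prog' (tm2_of_pt (eb := enc) h2)
  exact ⟨e, r, fun x t ht => h x t ht⟩

/-! ### Decoding -/

/-- the first string of a coded pair -/
def fstC (w : List Bool) : List Bool := (upr w).1

/-- the second string of a coded pair -/
def sndC (w : List Bool) : List Bool := (upr w).2

@[simp] lemma fstC_pair (u v : List Bool) : fstC (pairCode u v) = u := by
  unfold fstC
  rw [pairCode_eq, upr_pr]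

@[simp] lemma sndC_pair (u v : List Bool) : sndC (pairCode u v) = v := by
  unfold sndC
  rw [pairCode_eq, upr_pr]

lemma length_pairCode (u v : List Bool) :
    (pairCode u v).length = 2 * u.length + v.length + 1 := by
  rw [pairCode_eq, length_pr]

section dec

variable {α : Type} [PEnc α]

lemma ptf_fstC {w : α → List Bool} (hw : PTF w) : PTF (fun x => fstC (w x)) := by
  have h1 : PT (fun x : α => enc x) (fun x => w x) := PTF.strOfList hw
  have h2 : PTF (fun x : α => Str.ofList (fstC (w x))) := PT.fst h1
  exact PTF.strToList h2

lemma ptf_sndC {w : α → List Bool} (hw : PTF w) : PTF (fun x => sndC (w x)) := by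
  have h1 : PT (fun x : α => enc x) (fun x => w x) := PTF.strOfList hw
  have h2 : PTF (fun x : α => Str.ofList (sndC (w x))) := PT.snd h1
  exact PTF.strToList h2

lemma ptf_pairCode {u v : α → List Bool} (hu : PTF u) (hv : PTF v) :
    PTF (fun x => pairCode (u x) (v x)) := by
  have h1 : PT (fun x : α => enc x) (fun x => u x) := PTF.strOfList hu
  have h2 : PT (fun x : α => enc x) (fun x => v x) := PTF.strOfList hv
  have h3 : PTF (fun x : α => Str.ofList (pairCode (u x) (v x))) := PT.pair h1 h2
  exact PTF.strToList h3

end dec

end Pool.Agent.Helper7.BX
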