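import Pool.Agent.Helper7.SC.Aut
import Pool.Agent.Helper91.PolyTime.Typed

/-!
# A universal program

`univ e x t` is the output of the program `e` on the input `x` after `t` steps. It is computable in
polynomial time (in the lengths of `e`, `x` and in the number `t`), and every function that is
computable in polynomial time is given by some program.
-/

open Turing Pool.Agent.Helper91.PolyTime

namespace Pool.Agent.Helper7.BX

open Pool.Agent.Helper7.SC

/-! ### Lists of numbers as strings -/

/-- the string `1^a 0 1^b 0 …` of a list of numbers -/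
def encN (l : List ℕ) : List Bool := l.flatMap fun n => List.replicate n true ++ [false]

/-- one step of the decoding -/
def stepN (s : List ℕ × ℕ) (b : Bool) : List ℕ × ℕ :=
  bif b then (s.1, s.2 + 1) else (s.1 ++ [s.2], 0)

/-- the list of numbers of a string -/
def decN (e : List Bool) : List ℕ := (e.foldl stepN ([], 0)).1

lemma foldl_replicate (n : ℕ) (l : List ℕ) (k : ℕ) :
    (List.replicate n true).foldl stepN (l, k) = (l, k + n) := by
  induction n generalizing k with
  | zero => rfl
  | succ n ih =>
    rw [List.replicate_succ, List.foldl_cons]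
    change List.foldl stepN (l, k + 1) (List.replicate n true) = _
    rw [ih]
    congr 1
    omega

lemma decN_encN (l : List ℕ) : decN (encN l) = l := by
  have h : ∀ (l l' : List ℕ), (encN l).foldl stepN (l', 0) = (l' ++ l, 0) := by
    intro l
    induction l with
    | nil => intro l'; simp [encN]
    | cons a l ih =>
      intro l'
      have h1 : encN (a :: l) = List.replicate a true ++ ([false] ++ encN l) := by
        unfold encN
        rw [List.flatMap_cons, List.append_assoc]
      rw [h1, List.foldl_append, foldl_replicate, List.foldl_append]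
      change List.foldl stepN (l' ++ [0 + a], 0) (encN l) = _
      rw [ih, Nat.zero_add, List.append_assoc]
      rfl
  unfold decN
  rw [h]
  rfl

/-! ### Running a table -/

/-- the entry of a list of numbers -/
def ent (N : List ℕ) (i : ℕ) : ℕ := (N[i]?).getD 0

/-- the number of a symbol -/
def smb : Option Bool → ℕ
  | none => 0
  | some false => 1
  | some true => 2

/-- the initial state of a cell: the entries `1`, `2`, `3` -/
def iniN (N : List ℕ) (o : Option Bool) : ℕ := ent N (1 + smb o)

/-- the output symbol of a state `z`: the entry `4 + z` -/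
def outN (N : List ℕ) (z : ℕ) : ℕ := ent N (4 + z)

/-- the new state of a cell; entry `0` is the number of states -/
def nxtN (N : List ℕ) (b : Bool) (z l m r : ℕ) : ℕ :=
  ent N (4 + ent N 0 + ((((bif b then ent N 0 else 0) + z) * ent N 0 + l) * ent N 0 + m) * ent N 0 +
    r)

/-- the first row -/
def row0 (N : List ℕ) (x : List Bool) (W : ℕ) : List ℕ :=
  (List.range W).map fun i => iniN N (x[i]?)

/-- the next row -/
def nextRow (N : List ℕ) (W : ℕ) (R : List ℕ) : List ℕ :=
  (List.range W).map fun i => nxtN N (decide (i = 0)) (ent R 0) (ent R (i - 1)) (ent R i)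
    (ent R (i + 1))

/-- the row at the time `t` -/
def rowN (N : List ℕ) (x : List Bool) (W t : ℕ) : List ℕ := (nextRow N W)^[t] (row0 N x W)

/-- the string of a row -/
def readN (N : List ℕ) (t : ℕ) (R : List ℕ) : List Bool :=
  (List.range (t + 1)).flatMap fun k =>
    if (List.range (k + 1)).all (fun i => !decide (outN N (ent R i) = 0)) = true then
      [decide (outN N (ent R k) = 2)] else []

/-- the output of the program `e` on the input `x` after `t` steps -/
def univ (e x : List Bool) (t : ℕ) : List Bool :=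
  readN (decN e) t (rowN (decN e) x (2 * t + 2) t)

/-! ### Computability -/

section ptf

variable {α : Type} [PEnc α]

lemma ptf_getD0 {o : α → Option ℕ} (ho : PTF o) : PTF (fun a => (o a).getD 0) := by
  refine (PTF.optCase (n := fun _ => 0) (s := fun _ b => b) ho (PTF.const 0) PTF.id.snd).of_eq
    fun a => ?_
  cases o a <;> rfl

lemma ptf_ent {N : α → List ℕ} {i : α → ℕ} (hN : PTF N) (hi : PTF i) :
    PTF (fun x => ent (N x) (i x)) := by
  unfold ent
  exact ptf_getD0 (PTF.getElem? hi hN)

lemma foldl_stepN_bound (e : List Bool) : ∀ s : List ℕ × ℕ,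
    (enc (e.foldl stepN s).1).length + 2 * (e.foldl stepN s).2 ≤
      (enc s.1).length + 2 * s.2 + 2 * e.length := by
  induction e with
  | nil => intro s; simp
  | cons b e ih =>
    intro s
    rw [List.foldl_cons]
    refine (ih _).trans ?_
    have h : (enc (stepN s b).1).length + 2 * (stepN s b).2 ≤ (enc s.1).length + 2 * s.2 + 2 := by
      obtain ⟨l, k⟩ := s
      cases b
      · change (enc (l ++ [k])).length + 2 * 0 ≤ (enc l).length + 2 * k + 2
        rw [length_enc_append, length_enc_cons, enc_nil, length_enc_nat]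
        simp only [List.length_nil]
        omega
      · change (enc l).length + 2 * (k + 1) ≤ (enc l).length + 2 * k + 2
        omega
    simp only [List.length_cons]
    omega

lemma ptf_decN {e : α → List Bool} (he : PTF e) : PTF (fun x => decN (e x)) := by
  have hkey : PTF (fun e : List Bool => e.foldl stepN ([], 0)) := by
    refine PTF.foldl (F := fun _ s b => stepN s b) PTF.id (PTF.const _) ?_ (4 * Polynomial.X + 1) ?_
    · unfold stepN
      exact PTF.cond PTF.id.snd.snd (PTF.pair PTF.id.snd.fst.fst (PTF.succ PTF.id.snd.fst.snd))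
        (PTF.pair (PTF.append PTF.id.snd.fst.fst (PTF.cons PTF.id.snd.fst.snd (PTF.const [])))
          (PTF.const 0))
    · intro a l' hl'
      have h1 := foldl_stepN_bound l' ([], 0)
      have h2 := hl'.length_le
      have h3 := length_le_enc a
      have h4 : (enc (List.foldl stepN ([], 0) l')).length =
          2 * (enc (List.foldl stepN ([], 0) l').1).length + (List.foldl stepN ([], 0) l').2 + 1 := by
        rw [show (List.foldl stepN ([], 0) l') = ((List.foldl stepN ([], 0) l').1,
          (List.foldl stepN ([], 0) l').2) from rfl, length_enc_prod, length_enc_nat]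
      have h5 : (enc ([] : List ℕ)).length = 0 := rfl
      change (enc (List.foldl stepN ([], 0) l')).length ≤ _
      rw [h4]
      simp only [Polynomial.eval_add, Polynomial.eval_mul, Polynomial.eval_one,
        Polynomial.eval_ofNat, Polynomial.eval_X]
      simp only [h5] at h1
      omega
  exact (hkey.comp he).fst

lemma ent_le (N : List ℕ) (i : ℕ) : ent N i ≤ (enc N).length := by
  unfold ent
  rcases h : N[i]? with _ | a
  · simp
  · have h1 := enc_mem_le (List.mem_of_getElem? h)
    rw [length_enc_nat] at h1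
    simpa using h1

lemma enc_le_of_forall {R : List ℕ} {B : ℕ} (h : ∀ a ∈ R, a ≤ B) :
    (enc R).length ≤ R.length * (2 * B + 1) := by
  induction R with
  | nil => simp [enc_nil]
  | cons a R ih =>
    rw [length_enc_cons, length_enc_nat, List.length_cons]
    have h1 := ih fun b hb => h b (List.mem_cons_of_mem _ hb)
    have h2 := h a (by simp)
    have h3 : (R.length + 1) * (2 * B + 1) = R.length * (2 * B + 1) + (2 * B + 1) := by ring
    omega

lemma ptf_smb {o : α → Option Bool} (ho : PTF o) : PTF (fun x => smb (o x)) :=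
  PTF.comp (g := smb) (PTF.ofFinite _) ho

lemma ptf_iniN {N : α → List ℕ} {o : α → Option Bool} (hN : PTF N) (ho : PTF o) :
    PTF (fun x => iniN (N x) (o x)) := by
  unfold iniN
  exact ptf_ent hN (PTF.add (PTF.const 1) (ptf_smb ho))

lemma ptf_outN {N : α → List ℕ} {z : α → ℕ} (hN : PTF N) (hz : PTF z) :
    PTF (fun x => outN (N x) (z x)) := by
  unfold outN
  exact ptf_ent hN (PTF.add (PTF.const 4) hz)

lemma ptf_nxtN {N : α → List ℕ} {b : α → Bool} {z l m r : α → ℕ} (hN : PTF N) (hb : PTF b)
    (hz : PTF z) (hl : PTF l) (hm : PTF m) (hr : PTF r) :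
    PTF (fun x => nxtN (N x) (b x) (z x) (l x) (m x) (r x)) := by
  unfold nxtN
  have h0 : PTF (fun x => ent (N x) 0) := ptf_ent hN (PTF.const 0)
  exact ptf_ent hN (PTF.add (PTF.add (PTF.add (PTF.const 4) h0) (PTF.mul (PTF.add (PTF.mul
    (PTF.add (PTF.mul (PTF.add (PTF.cond hb h0 (PTF.const 0)) hz) h0) hl) h0) hm) h0)) hr)

lemma ptf_nextRow {N : α → List ℕ} {W : α → ℕ} {R : α → List ℕ} (hN : PTF N) (hW : PTF W)
    (hR : PTF R) : PTF (fun x => nextRow (N x) (W x) (R x)) := by
  unfold nextRow
  refine PTF.map (f := fun x i => nxtN (N x) (decide (i = 0)) (ent (R x) 0) (ent (R x) (i - 1))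
    (ent (R x) i) (ent (R x) (i + 1))) (PTF.range hW) ?_
  have hR' : PTF (fun p : α × ℕ => R p.1) := hR.comp PTF.id.fst
  exact ptf_nxtN (hN.comp PTF.id.fst) (PTF.isZero PTF.id.snd) (ptf_ent hR' (PTF.const 0))
    (ptf_ent hR' (PTF.pred PTF.id.snd)) (ptf_ent hR' PTF.id.snd) (ptf_ent hR' (PTF.succ PTF.id.snd))

lemma ptf_row0 {N : α → List ℕ} {x : α → List Bool} {W : α → ℕ} (hN : PTF N) (hx : PTF x)
    (hW : PTF W) : PTF (fun a => row0 (N a) (x a) (W a)) := by
  unfold row0
  exact PTF.map (f := fun a i => iniN (N a) ((x a)[i]?)) (PTF.range hW)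
    (ptf_iniN (hN.comp PTF.id.fst) (PTF.getElem? PTF.id.snd (hx.comp PTF.id.fst)))

lemma rowN_bound (N : List ℕ) (x : List Bool) (W t : ℕ) :
    (enc (rowN N x W t)).length ≤ W * (2 * (enc N).length + 1) := by
  have h : (rowN N x W t).length = W ∧ ∀ a ∈ rowN N x W t, a ≤ (enc N).length := by
    unfold rowN
    cases t with
    | zero =>
      unfold row0
      refine ⟨by simp, fun a ha => ?_⟩
      obtain ⟨i, -, rfl⟩ := List.mem_map.1 ha
      exact ent_le _ _
    | succ t =>
      rw [Function.iterate_succ_apply']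
      unfold nextRow
      refine ⟨by simp, fun a ha => ?_⟩
      obtain ⟨i, -, rfl⟩ := List.mem_map.1 ha
      exact ent_le _ _
  have h1 := enc_le_of_forall h.2
  rwa [h.1] at h1

lemma ptf_rowN {N : α → List ℕ} {x : α → List Bool} {W t : α → ℕ} (hN : PTF N) (hx : PTF x)
    (hW : PTF W) (ht : PTF t) : PTF (fun a => rowN (N a) (x a) (W a) (t a)) := by
  obtain ⟨p, hp⟩ := hN.length_le
  obtain ⟨q, hq⟩ := hW.length_le
  refine PTF.iterate (F := fun a R => nextRow (N a) (W a) R) ht (ptf_row0 hN hx hW)
    (ptf_nextRow (hN.comp PTF.id.fst) (hW.comp PTF.id.fst) PTF.id.snd) (q * (2 * p + 1)) ?_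
  intro a m _
  have h1 := rowN_bound (N a) (x a) (W a) m
  refine h1.trans ?_
  have h2 := hp a
  have h3 := hq a
  rw [length_enc_nat] at h3
  simp only [Polynomial.eval_add, Polynomial.eval_mul, Polynomial.eval_one,
    Polynomial.eval_ofNat]
  exact Nat.mul_le_mul h3 (by omega)

lemma ptf_readN {N : α → List ℕ} {t : α → ℕ} {R : α → List ℕ} (hN : PTF N) (ht : PTF t)
    (hR : PTF R) : PTF (fun x => readN (N x) (t x) (R x)) := by
  unfold readN
  refine PTF.flatMap (f := fun x k =>
    if (List.range (k + 1)).all (fun i => !decide (outN (N x) (ent (R x) i) = 0)) = true then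
      [decide (outN (N x) (ent (R x) k) = 2)] else []) (PTF.range (PTF.succ ht)) ?_
  have hN' : PTF (fun p : α × ℕ => N p.1) := hN.comp PTF.id.fst
  have hR' : PTF (fun p : α × ℕ => R p.1) := hR.comp PTF.id.fst
  refine (PTF.cond (c := fun p : α × ℕ => (List.range (p.2 + 1)).all
    (fun i => !decide (outN (N p.1) (ent (R p.1) i) = 0))) ?_
    (f := fun p => [decide (outN (N p.1) (ent (R p.1) p.2) = 2)]) ?_
    (PTF.const [])).of_eq fun p => ?_
  · exact PTF.all (f := fun (p : α × ℕ) i => !decide (outN (N p.1) (ent (R p.1) i) = 0))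
      (PTF.range (PTF.succ PTF.id.snd)) (PTF.not (PTF.isZero (ptf_outN (hN'.comp PTF.id.fst)
        (ptf_ent (hR'.comp PTF.id.fst) PTF.id.snd))))
  · exact PTF.cons (PTF.eq (ptf_outN hN' (ptf_ent hR' PTF.id.snd)) (PTF.const 2)) (PTF.const [])
  · by_cases h : (List.range (p.2 + 1)).all
      (fun i => !decide (outN (N p.1) (ent (R p.1) i) = 0)) = true
    · rw [if_pos h, h]
      rfl
    · rw [if_neg h, Bool.eq_false_of_not_eq_true h]
      rfl

/-- **The universal program works in polynomial time.** -/
theorem ptf_univ {e x : α → List Bool} {t : α → ℕ} (he : PTF e) (hx : PTF x) (ht : PTF t) :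
    PTF (fun a => univ (e a) (x a) (t a)) := by
  unfold univ
  have hN := ptf_decN he
  exact ptf_readN hN ht (ptf_rowN hN hx (PTF.add (PTF.mul (PTF.const 2) ht) (PTF.const 2)) ht)

end ptf

/-! ### Automata as programs -/

/-- the list of numbers of an automaton -/
def nums (A : Aut) : List ℕ :=
  [A.s, A.ini none, A.ini (some false), A.ini (some true)] ++
    ((List.range A.s).map (fun z => smb (A.out z)) ++
      (List.range (2 * A.s ^ 4)).map fun i => A.nxt (decide (A.s ^ 4 ≤ i)) (i / A.s ^ 3 % A.s)
        (i / A.s ^ 2 % A.s) (i / A.s % A.s) (i % A.s))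

lemma ent_nums_s (A : Aut) : ent (nums A) 0 = A.s := rfl

lemma iniN_nums (A : Aut) (o : Option Bool) : iniN (nums A) o = A.ini o := by
  rcases o with _ | _ | _ <;> rfl

lemma outN_nums (A : Aut) {z : ℕ} (hz : z < A.s) : outN (nums A) z = smb (A.out z) := by
  unfold outN ent nums
  rw [List.getElem?_append_right (by simp), List.getElem?_append_left (by simp [hz]),
    List.getElem?_map]
  simp only [List.length_cons, List.length_nil]
  rw [show 4 + z - (0 + 1 + 1 + 1 + 1) = z by omega, List.getElem?_range hz]
  rfl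

lemma digits4 {s z l m r : ℕ} (hz : z < s) (hl : l < s) (hm : m < s) (hr : r < s) (b : Bool) :
    let i := ((((bif b then s else 0) + z) * s + l) * s + m) * s + r
    i < 2 * s ^ 4 ∧ decide (s ^ 4 ≤ i) = b ∧ i / s ^ 3 % s = z ∧ i / s ^ 2 % s = l ∧
      i / s % s = m ∧ i % s = r := by
  intro i
  have hs : 0 < s := by omega
  set c := (bif b then s else 0) + z with hc
  have e1 : i / s = (c * s + l) * s + m := by
    change (((c * s + l) * s + m) * s + r) / s = _
    rw [Nat.add_comm, Nat.add_mul_div_right _ _ hs, Nat.div_eq_of_lt hr, Nat.zero_add]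
  have e2 : i / s ^ 2 = c * s + l := by
    rw [pow_two, ← Nat.div_div_eq_div_mul, e1, Nat.add_comm, Nat.add_mul_div_right _ _ hs,
      Nat.div_eq_of_lt hm, Nat.zero_add]
  have e3 : i / s ^ 3 = c := by
    rw [pow_succ s 2, ← Nat.div_div_eq_div_mul, e2, Nat.add_comm, Nat.add_mul_div_right _ _ hs,
      Nat.div_eq_of_lt hl, Nat.zero_add]
  have e4 : i = c * s ^ 3 + l * s ^ 2 + m * s + r := by
    change (((c * s + l) * s + m) * s + r) = _
    ring
  have m1 : (l + 1) * s ^ 2 ≤ s * s ^ 2 := Nat.mul_le_mul_right _ hl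
  have m2 : (m + 1) * s ≤ s * s := Nat.mul_le_mul_right _ hm
  have p2 : s * s = s ^ 2 := by ring
  have p3 : s * s ^ 2 = s ^ 3 := by ring
  have p4 : s * s ^ 3 = s ^ 4 := by ring
  have hlt : l * s ^ 2 + m * s + r < s ^ 3 := by
    have q1 : (l + 1) * s ^ 2 = l * s ^ 2 + s ^ 2 := by ring
    have q2 : (m + 1) * s = m * s + s := by ring
    omega
  refine ⟨?_, ?_, ?_, ?_, ?_, ?_⟩
  · have h1 : c + 1 ≤ 2 * s := by
      rw [hc]
      cases b <;> simp <;> omega
    have h2 : (c + 1) * s ^ 3 ≤ 2 * s * s ^ 3 := Nat.mul_le_mul_right _ h1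
    have h3 : (c + 1) * s ^ 3 = c * s ^ 3 + s ^ 3 := by ring
    have h4 : 2 * s * s ^ 3 = 2 * s ^ 4 := by ring
    omega
  · cases b
    · rw [decide_eq_false_iff_not, not_le]
      have h1 : c + 1 ≤ s := by rw [hc]; simp; omega
      have h2 : (c + 1) * s ^ 3 ≤ s * s ^ 3 := Nat.mul_le_mul_right _ h1
      have h3 : (c + 1) * s ^ 3 = c * s ^ 3 + s ^ 3 := by ring
      omega
    · rw [decide_eq_true_eq]
      have h1 : s ≤ c := by rw [hc]; simp
      have h2 : s * s ^ 3 ≤ c * s ^ 3 := Nat.mul_le_mul_right _ h1
      omega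
  · rw [e3, hc]
    cases b
    · simp [Nat.mod_eq_of_lt hz]
    · simp [Nat.mod_eq_of_lt hz]
  · rw [e2, Nat.add_comm, Nat.add_mul_mod_self_right, Nat.mod_eq_of_lt hl]
  · rw [e1, Nat.add_comm, Nat.add_mul_mod_self_right, Nat.mod_eq_of_lt hm]
  · change (((c * s + l) * s + m) * s + r) % s = r
    rw [Nat.add_comm, Nat.add_mul_mod_self_right, Nat.mod_eq_of_lt hr]

lemma nxtN_nums (A : Aut) {b : Bool} {z l m r : ℕ} (hz : z < A.s) (hl : l < A.s) (hm : m < A.s)
    (hr : r < A.s) : nxtN (nums A) b z l m r = A.nxt b z l m r := by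
  obtain ⟨h1, h2, h3, h4, h5, h6⟩ := digits4 hz hl hm hr b
  unfold nxtN
  rw [ent_nums_s]
  set i := ((((bif b then A.s else 0) + z) * A.s + l) * A.s + m) * A.s + r with hi
  rw [show 4 + A.s + (((((bif b then A.s else 0) + z) * A.s + l) * A.s + m) * A.s) + r =
    4 + A.s + i by rw [hi]; ring]
  unfold ent nums
  rw [List.getElem?_append_right (by simp only [List.length_cons, List.length_nil]; omega),
    List.getElem?_append_right (by simp only [List.length_cons, List.length_nil,
      List.length_map, List.length_range]; omega), List.getElem?_map]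
  simp only [List.length_cons, List.length_nil, List.length_map, List.length_range]
  rw [show 4 + A.s + i - (0 + 1 + 1 + 1 + 1) - A.s = i by omega, List.getElem?_range h1]
  simp only [Option.map_some, Option.getD_some]
  rw [h2, h3, h4, h5, h6]

lemma rowN_nums (A : Aut) (x : List Bool) (W t : ℕ) : ∀ i, i + t < W →
    ent (rowN (nums A) x W t) i = A.tab (fun i => x[i]?) t i := by
  induction t with
  | zero =>
    intro i hi
    change ent (row0 (nums A) x W) i = A.ini (x[i]?)
    unfold row0 ent
    rw [List.getElem?_map, List.getElem?_range (by omega)]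
    exact iniN_nums A _
  | succ t ih =>
    intro i hi
    have h1 : rowN (nums A) x W (t + 1) = nextRow (nums A) W (rowN (nums A) x W t) := by
      unfold rowN
      rw [Function.iterate_succ_apply']
    rw [h1]
    unfold nextRow
    have h2 : ent ((List.range W).map fun i => nxtN (nums A) (decide (i = 0))
        (ent (rowN (nums A) x W t) 0) (ent (rowN (nums A) x W t) (i - 1))
        (ent (rowN (nums A) x W t) i) (ent (rowN (nums A) x W t) (i + 1))) i =
        nxtN (nums A) (decide (i = 0)) (ent (rowN (nums A) x W t) 0)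
        (ent (rowN (nums A) x W t) (i - 1)) (ent (rowN (nums A) x W t) i)
        (ent (rowN (nums A) x W t) (i + 1)) := by
      unfold ent
      rw [List.getElem?_map, List.getElem?_range (by omega)]
      rfl
    rw [h2, ih _ (by omega), ih _ (by omega), ih _ (by omega), ih _ (by omega),
      nxtN_nums A (A.tab_lt _ _ _) (A.tab_lt _ _ _) (A.tab_lt _ _ _) (A.tab_lt _ _ _)]
    rfl

lemma flatMap_toList (L : List Bool) : ∀ n, L.length ≤ n →
    ((List.range n).flatMap fun k => (L[k]?).toList) = L := by
  induction L with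
  | nil => intro n _; simp
  | cons a L ih =>
    intro n hn
    obtain ⟨n, rfl⟩ : ∃ n', n = n' + 1 := ⟨n - 1, by simp at hn; omega⟩
    rw [List.range_succ_eq_map, List.flatMap_cons, List.flatMap_map]
    have h1 := ih n (by simpa using hn)
    simp only [List.getElem?_cons_succ]
    rw [h1]
    rfl

lemma read_eq {N : List ℕ} {R : List ℕ} {L : List Bool} {t : ℕ} (hL : L.length ≤ t)
    (h : ∀ i ≤ t, outN N (ent R i) = smb (L[i]?)) : readN N t R = L := by
  have h0 : ∀ o : Option Bool, smb o = 0 ↔ o = none := by
    intro o; rcases o with _ | _ | _ <;> simp [smb]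
  unfold readN
  rw [← flatMap_toList L (t + 1) (by omega)]
  rw [flatMap_toList L (t + 1) (by omega)]
  refine Eq.trans (List.flatMap_congr fun k hk => ?_) (flatMap_toList L (t + 1) (by omega))
  have hk' : k ≤ t := Nat.lt_succ_iff.1 (List.mem_range.1 hk)
  by_cases hkL : k < L.length
  · have h1 : (List.range (k + 1)).all (fun i => !decide (outN N (ent R i) = 0)) = true := by
      rw [List.all_eq_true]
      intro i hi
      have hi' : i ≤ k := Nat.lt_succ_iff.1 (List.mem_range.1 hi)
      rw [h i (by omega), Bool.not_eq_true', decide_eq_false_iff_not, h0,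
        List.getElem?_eq_getElem (by omega)]
      simp
    rw [if_pos h1, h k hk', List.getElem?_eq_getElem hkL]
    cases L[k] <;> rfl
  · have h1 : ¬ (List.range (k + 1)).all (fun i => !decide (outN N (ent R i) = 0)) = true := by
      rw [List.all_eq_true]
      intro h2
      have h3 := h2 k (List.mem_range.2 (by omega))
      rw [h k hk', List.getElem?_eq_none (by omega)] at h3
      simp [smb] at h3
    rw [if_neg h1, List.getElem?_eq_none (by omega)]
    rfl

/-- **Every function computable in polynomial time is given by a program.** -/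
theorem exists_prog {α β : Type} {ea : α → List Bool} {eb : β → List Bool} {f : α → β}
    (H : Nonempty (TM2ComputableInPolyTime ea eb f)) : ∃ (e : List Bool) (p : Polynomial ℕ),
    ∀ a t, p.eval (ea a).length ≤ t → univ e (ea a) t = eb (f a) := by
  obtain ⟨H⟩ := H
  obtain ⟨A, p, hA⟩ := exists_aut H
  refine ⟨encN (nums A), p, fun a t ht => ?_⟩
  obtain ⟨h1, h2⟩ := hA a
  unfold univ
  rw [decN_encN]
  refine read_eq (h2.trans ht) fun i hi => ?_
  rw [rowN_nums A _ _ _ _ (by omega), outN_nums A (A.tab_lt _ _ _), h1 t ht]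

/-- A polynomial is bounded by a power plus a constant. -/
lemma poly_le (p : Polynomial ℕ) : ∃ r : ℕ, ∀ n, p.eval n ≤ n ^ r + r := by
  have key : ∀ C d : ℕ, ∃ r, ∀ n : ℕ, C * n ^ d + C ≤ n ^ r + r := by
    intro C d
    refine ⟨2 * C + d, fun n => ?_⟩
    rcases Nat.lt_or_ge n 2 with h | h
    · have h1 : n ^ d ≤ 1 := by
        have h0 : n ^ d ≤ 1 ^ d := Nat.pow_le_pow_left (by omega) d
        rwa [one_pow] at h0
      have h2 : C * n ^ d ≤ C * 1 := Nat.mul_le_mul_left _ h1
      omega
    · have h1 : C < 2 ^ C := Nat.lt_two_pow_self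
      have h2 : 2 ^ C ≤ n ^ C := Nat.pow_le_pow_left h C
      have h3 : C * n ^ d ≤ n ^ C * n ^ d := Nat.mul_le_mul_right _ (by omega)
      have h4 : n ^ C * n ^ d = n ^ (C + d) := (pow_add _ _ _).symm
      have h5 : n ^ (C + d) ≤ n ^ (2 * C + d) := Nat.pow_le_pow_right (by omega) (by omega)
      omega
  have h : ∃ C d : ℕ, ∀ n, p.eval n ≤ C * n ^ d + C := by
    induction p using Polynomial.induction_on' with
    | add p q hp hq =>
      obtain ⟨C, d, h⟩ := hp
      obtain ⟨C', d', h'⟩ := hq
      refine ⟨2 * (C + C'), d + d', fun n => ?_⟩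
      rw [Polynomial.eval_add]
      have h1 := h n
      have h2 := h' n
      rcases Nat.eq_zero_or_pos n with rfl | hn
      · rcases Nat.eq_zero_or_pos d with rfl | hd
        · rcases Nat.eq_zero_or_pos d' with rfl | hd'
          · simp at h1 h2 ⊢
            omega
          · rw [zero_pow hd'.ne'] at h2
            simp at h1 h2 ⊢
            omega
        · rw [zero_pow hd.ne'] at h1
          rcases Nat.eq_zero_or_pos d' with rfl | hd'
          · simp at h1 h2 ⊢
            omega
          · rw [zero_pow hd'.ne'] at h2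
            simp at h1 h2 ⊢
            omega
      · have h3 : n ^ d ≤ n ^ (d + d') := Nat.pow_le_pow_right hn (by omega)
        have h4 : n ^ d' ≤ n ^ (d + d') := Nat.pow_le_pow_right hn (by omega)
        have h5 : C * n ^ d ≤ C * n ^ (d + d') := Nat.mul_le_mul_left _ h3
        have h6 : C' * n ^ d' ≤ C' * n ^ (d + d') := Nat.mul_le_mul_left _ h4
        have h7 : 2 * (C + C') * n ^ (d + d') = 2 * (C * n ^ (d + d')) + 2 * (C' * n ^ (d + d')) := by
          ring
        omega
    | monomial d c =>
      refine ⟨c, d, fun n => ?_⟩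
      rw [Polynomial.eval_monomial]
      omega
  obtain ⟨C, d, h⟩ := h
  obtain ⟨r, hr⟩ := key C d
  exact ⟨r, fun n => (h n).trans (hr n)⟩

theorem exists_prog' {α β : Type} {ea : α → List Bool} {eb : β → List Bool} {f : α → β}
    (H : Nonempty (TM2ComputableInPolyTime ea eb f)) : ∃ (e : List Bool) (r : ℕ),
    ∀ a t, (ea a).length ^ r + r ≤ t → univ e (ea a) t = eb (f a) := by
  obtain ⟨e, p, h⟩ := exists_prog H
  obtain ⟨r, hr⟩ := poly_le p
  exact ⟨e, r, fun a t ht => h a t ((hr _).trans ht)⟩

end Pool.Agent.Helper7.BX
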